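import Pool.Agent.Helper73_ED.Statements

/-!
# Module G6: classification of the points of the secant variety of the moment curve
-/

set_option autoImplicit false

open MvPolynomial

namespace Helper76_ED

open Helper73_ED

/-- `3 × 3` Hankel minor with columns `i`, `j`, `k`. -/
def det3 {R : Type*} [CommRing R] (c : ℕ → R) (i j k : ℕ) : R :=
  c i * (c (j + 1) * c (k + 2) - c (j + 2) * c (k + 1)) -
    c (i + 1) * (c j * c (k + 2) - c (j + 2) * c k) +
    c (i + 2) * (c j * c (k + 1) - c (j + 1) * c k)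

lemma exists_q (c : ℕ → ℂ) (N : ℕ) (h : ∀ i j k, i ≤ N → j ≤ N → k ≤ N → det3 c i j k = 0) :
    ∃ q0 q1 q2 : ℂ, (q0 ≠ 0 ∨ q1 ≠ 0 ∨ q2 ≠ 0) ∧
      ∀ j ≤ N, q0 * c j + q1 * c (j + 1) + q2 * c (j + 2) = 0 := by
  by_cases h2 : ∃ j k : ℕ, j ≤ N ∧ k ≤ N ∧ (c (j + 1) * c (k + 2) - c (j + 2) * c (k + 1) ≠ 0 ∨
      c j * c (k + 2) - c (j + 2) * c k ≠ 0 ∨ c j * c (k + 1) - c (j + 1) * c k ≠ 0)
  · obtain ⟨j, k, hj, hk, hne⟩ := h2
    refine ⟨c (j + 1) * c (k + 2) - c (j + 2) * c (k + 1),
      -(c j * c (k + 2) - c (j + 2) * c k), c j * c (k + 1) - c (j + 1) * c k, ?_, ?_⟩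
    · rcases hne with h | h | h
      · exact Or.inl h
      · exact Or.inr (Or.inl (neg_ne_zero.mpr h))
      · exact Or.inr (Or.inr h)
    · intro i hi
      have := h i j k hi hj hk
      unfold det3 at this
      linear_combination this
  · push Not at h2
    by_cases h1 : ∃ i ≤ N, (c i ≠ 0 ∨ c (i + 1) ≠ 0 ∨ c (i + 2) ≠ 0)
    · obtain ⟨i, hi, hne⟩ := h1
      by_cases h3 : c i ≠ 0 ∨ c (i + 1) ≠ 0
      · refine ⟨c (i + 1), -c i, 0, ?_, ?_⟩
        · rcases h3 with h | h
          · exact Or.inr (Or.inl (neg_ne_zero.mpr h))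
          · exact Or.inl h
        · intro j hj
          obtain ⟨_, _, e⟩ := h2 i j hi hj
          linear_combination -e
      · push Not at h3
        have h4 : c (i + 2) ≠ 0 := by
          rcases hne with h | h | h
          · exact absurd h3.1 h
          · exact absurd h3.2 h
          · exact h
        refine ⟨c (i + 2), 0, -c i, Or.inl h4, ?_⟩
        intro j hj
        obtain ⟨_, e, _⟩ := h2 i j hi hj
        linear_combination -e
    · push Not at h1
      refine ⟨1, 0, 0, Or.inl one_ne_zero, ?_⟩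
      intro j hj
      rw [(h1 j hj).1]
      ring

/-- extension by zero -/
def ext0 {d : ℕ} {R : Type*} [Zero R] (x : Fin (d + 1) → R) (m : ℕ) : R :=
  if h : m < d + 1 then x ⟨m, h⟩ else 0

lemma vanish {d : ℕ} {x : Fin (d + 1) → ℂ} (hx : x ∈ zclosure (secY d)) {i j k : ℕ}
    (hi : i + 2 ≤ d) (hj : j + 2 ≤ d) (hk : k + 2 ≤ d) : det3 (ext0 x) i j k = 0 := by
  have hev : ∀ y : Fin (d + 1) → ℂ, eval y (det3 (ext0 (X : Fin (d + 1) → MvPolynomial _ ℂ)) i j k)
      = det3 (ext0 y) i j k := by
    intro y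
    have h1 : ∀ m, eval y (ext0 (X : Fin (d + 1) → MvPolynomial _ ℂ) m) = ext0 y m := by
      intro m
      unfold ext0
      split_ifs <;> simp
    simp [det3, h1]
  rw [← hev]
  refine hx _ ?_
  rintro y ⟨z, w, z', w', rfl⟩
  rw [hev]
  have h2 : ∀ m, m + 2 ≤ d → ext0 (pw d z w + pw d z' w') m =
        (z ^ (d - 2 - m) * w ^ m) * z ^ 2 + (z' ^ (d - 2 - m) * w' ^ m) * z' ^ 2 ∧
      ext0 (pw d z w + pw d z' w') (m + 1) =
        (z ^ (d - 2 - m) * w ^ m) * (z * w) + (z' ^ (d - 2 - m) * w' ^ m) * (z' * w') ∧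
      ext0 (pw d z w + pw d z' w') (m + 2) =
        (z ^ (d - 2 - m) * w ^ m) * w ^ 2 + (z' ^ (d - 2 - m) * w' ^ m) * w' ^ 2 := by
    intro m hm
    obtain ⟨e, rfl⟩ : ∃ e, d = m + 2 + e := ⟨d - (m + 2), by omega⟩
    have e1 : m + 2 + e - 2 - m = e := by omega
    have e2 : m + 2 + e - m = e + 2 := by omega
    have e3 : m + 2 + e - (m + 1) = e + 1 := by omega
    have e4 : m + 2 + e - (m + 2) = e := by omega
    unfold ext0
    rw [dif_pos (by omega), dif_pos (by omega), dif_pos (by omega)]
    simp only [pw, Pi.add_apply, e1, e2, e3, e4]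
    refine ⟨by ring, by ring, by ring⟩
  obtain ⟨i1, i2, i3⟩ := h2 i hi
  obtain ⟨j1, j2, j3⟩ := h2 j hj
  obtain ⟨k1, k2, k3⟩ := h2 k hk
  unfold det3
  rw [i1, i2, i3, j1, j2, j3, k1, k2, k3]
  ring

theorem classification : ClassificationStatement := by
  intro d hd x hx
  obtain ⟨q0, q1, q2, hq, hrec⟩ := exists_q (ext0 x) (d - 2) (fun i j k hi hj hk =>
    vanish hx (by omega) (by omega) (by omega))
  -- reversed sequence
  obtain ⟨a, ha⟩ : ∃ a : ℕ → ℂ, a = fun k => ext0 x (d - k) := ⟨_, rfl⟩
  have hax : ∀ j : Fin (d + 1), x j = a (d - j) := by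
    intro j
    rw [ha]
    have : d - (d - (j : ℕ)) = j := by omega
    simp only [this, ext0]
    rw [dif_pos j.2]
  have hreca : ∀ k, k + 2 ≤ d → q0 * a (k + 2) + q1 * a (k + 1) + q2 * a k = 0 := by
    intro k hk
    have := hrec (d - (k + 2)) (by omega)
    rw [ha]
    have e1 : d - (k + 2) + 1 = d - (k + 1) := by omega
    have e2 : d - (k + 2) + 2 = d - k := by omega
    rw [e1, e2] at this
    exact this
  by_cases h0 : q0 = 0
  · subst h0
    by_cases h1 : q1 = 0
    · subst h1
      have h2 : q2 ≠ 0 := by simpa using hq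
      have ha0 : ∀ k, k + 2 ≤ d → a k = 0 := by
        intro k hk
        have := hreca k hk
        simpa [h2] using this
      have hx' : x = a d • dl d 0 + a (d - 1) • dl d 1 := by
        funext j
        rw [hax]
        simp only [Pi.add_apply, Pi.smul_apply, dl, smul_eq_mul]
        by_cases j0 : (j : ℕ) = 0
        · simp [j0]
        · by_cases j1 : (j : ℕ) = 1
          · simp [j1]
          · rw [if_neg j0, if_neg j1, ha0 _ (by omega)]
            ring
      by_cases hb : a (d - 1) = 0
      · refine Or.inr (Or.inr (Or.inr (Or.inr ⟨a d, 1, 0, ?_⟩)))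
        rw [hx', hb]
        funext j
        simp only [Pi.add_apply, Pi.smul_apply, dl, smul_eq_mul, pw]
        by_cases j0 : (j : ℕ) = 0
        · simp [j0]
        · simp [j0]
      · exact Or.inr (Or.inr (Or.inr (Or.inl ⟨a d, a (d - 1), hb, hx'⟩)))
    · obtain ⟨s, hs⟩ : ∃ s : ℂ, s = -q2 / q1 := ⟨_, rfl⟩
      have hs' : q2 = -q1 * s := by rw [hs]; field_simp
      have hak : ∀ k, k + 1 ≤ d → a k = a 0 * s ^ k := by
        intro k
        induction k with
        | zero => intro _; simp
        | succ k ih =>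
          intro hk
          have := hreca k (by omega)
          rw [hs', ih (by omega)] at this
          have h3 : q1 * (a (k + 1) - a 0 * s ^ (k + 1)) = 0 := by
            rw [pow_succ]; linear_combination this
          rcases mul_eq_zero.mp h3 with h | h
          · exact absurd h h1
          · linear_combination h
      have hx' : x = a 0 • mom d 0 s + (a d - a 0 * s ^ d) • dl d 0 := by
        funext j
        rw [hax]
        simp only [Pi.add_apply, Pi.smul_apply, dl, smul_eq_mul, mom]
        by_cases j0 : (j : ℕ) = 0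
        · simp [j0]
        · rw [if_neg j0, hak _ (by omega)]
          simp
      by_cases hb : a d - a 0 * s ^ d = 0
      · refine Or.inr (Or.inr (Or.inr (Or.inr ⟨a 0, s, 1, ?_⟩)))
        rw [hx', hb]
        funext j
        simp [pw, mom]
      · by_cases hb0 : a 0 = 0
        · refine Or.inr (Or.inr (Or.inr (Or.inr ⟨a d, 1, 0, ?_⟩)))
          rw [hx', hb0]
          funext j
          simp only [Pi.add_apply, Pi.smul_apply, dl, smul_eq_mul, pw]
          by_cases j0 : (j : ℕ) = 0
          · simp [j0]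
          · simp [j0]
        · exact Or.inr (Or.inl ⟨s, a 0, _, hb0, hb, hx'⟩)
  · -- roots of `q0 T² + q1 T + q2`
    obtain ⟨δ, hδ⟩ : ∃ δ : ℂ, δ ^ 2 = q1 ^ 2 - 4 * q0 * q2 := by
      obtain ⟨δ, hδ⟩ := IsAlgClosed.exists_pow_nat_eq (q1 ^ 2 - 4 * q0 * q2) (n := 2) (by norm_num)
      exact ⟨δ, hδ⟩
    obtain ⟨s, hs⟩ : ∃ s : ℂ, s = (-q1 + δ) / (2 * q0) := ⟨_, rfl⟩
    obtain ⟨t, ht⟩ : ∃ t : ℂ, t = (-q1 - δ) / (2 * q0) := ⟨_, rfl⟩
    have hq1 : q1 = -q0 * (s + t) := by rw [hs, ht]; field_simp; ring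
    have hq2 : q2 = q0 * (s * t) := by
      have : q0 * (s * t) = (q1 ^ 2 - δ ^ 2) / (4 * q0) := by rw [hs, ht]; field_simp; ring
      rw [this, hδ]; field_simp; ring
    have hrec' : ∀ k, k + 2 ≤ d → a (k + 2) = (s + t) * a (k + 1) - s * t * a k := by
      intro k hk
      have := hreca k hk
      rw [hq1, hq2] at this
      have h3 : q0 * (a (k + 2) - ((s + t) * a (k + 1) - s * t * a k)) = 0 := by
        linear_combination this
      rcases mul_eq_zero.mp h3 with h | h
      · exact absurd h h0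
      · linear_combination h
    by_cases hst : s = t
    · subst hst
      obtain ⟨β, hβ⟩ : ∃ β : ℂ, β = a 1 - a 0 * s := ⟨_, rfl⟩
      have hak : ∀ k, k + 1 ≤ d → a k = a 0 * s ^ k + β * (k * s ^ (k - 1)) ∧
          a (k + 1) = a 0 * s ^ (k + 1) + β * ((k + 1 : ℕ) * s ^ k) := by
        intro k
        induction k with
        | zero => intro _; simp [hβ]
        | succ k ih =>
          intro hk
          obtain ⟨i1, i2⟩ := ih (by omega)
          refine ⟨by simpa using i2, ?_⟩
          rw [hrec' k (by omega), i2, i1]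
          rcases Nat.eq_zero_or_pos k with rfl | hk0
          · push_cast; ring
          · obtain ⟨m, rfl⟩ : ∃ m, k = m + 1 := ⟨k - 1, by omega⟩
            simp only [Nat.add_sub_cancel]
            push_cast
            ring
      have hak' : ∀ k ≤ d, a k = a 0 * s ^ k + β * (k * s ^ (k - 1)) := by
        intro k hk
        rcases Nat.eq_zero_or_pos k with rfl | hk0
        · simp
        · have := (hak (k - 1) (by omega)).2
          have e : k - 1 + 1 = k := by omega
          rw [e] at this
          exact this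
      have hx' : x = a 0 • mom d 0 s + β • mom d 1 s := by
        funext j
        rw [hax, hak' _ (by omega)]
        simp [mom]
      by_cases hb : β = 0
      · refine Or.inr (Or.inr (Or.inr (Or.inr ⟨a 0, s, 1, ?_⟩)))
        rw [hx', hb]
        funext j
        simp [pw, mom]
      · exact Or.inr (Or.inr (Or.inl ⟨s, a 0, β, hb, hx'⟩))
    · have hst' : s - t ≠ 0 := sub_ne_zero.mpr hst
      obtain ⟨α, hα⟩ : ∃ α : ℂ, α = (a 1 - t * a 0) / (s - t) := ⟨_, rfl⟩
      obtain ⟨β, hβ⟩ : ∃ β : ℂ, β = (s * a 0 - a 1) / (s - t) := ⟨_, rfl⟩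
      have hak : ∀ k, k + 1 ≤ d → a k = α * s ^ k + β * t ^ k ∧
          a (k + 1) = α * s ^ (k + 1) + β * t ^ (k + 1) := by
        intro k
        induction k with
        | zero =>
          intro _
          refine ⟨?_, ?_⟩
          · rw [hα, hβ]; field_simp; ring
          · rw [hα, hβ]; field_simp; ring
        | succ k ih =>
          intro hk
          obtain ⟨i1, i2⟩ := ih (by omega)
          refine ⟨i2, ?_⟩
          rw [hrec' k (by omega), i2, i1]
          ring
      have hak' : ∀ k ≤ d, a k = α * s ^ k + β * t ^ k := by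
        intro k hk
        rcases Nat.eq_zero_or_pos k with rfl | hk0
        · exact (hak 0 (by omega)).1
        · have := (hak (k - 1) (by omega)).2
          have e : k - 1 + 1 = k := by omega
          rw [e] at this
          exact this
      have hx' : x = α • mom d 0 s + β • mom d 0 t := by
        funext j
        rw [hax, hak' _ (by omega)]
        simp [mom]
      by_cases hb : β = 0
      · refine Or.inr (Or.inr (Or.inr (Or.inr ⟨α, s, 1, ?_⟩)))
        rw [hx', hb]
        funext j
        simp [pw, mom]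
      · by_cases hb' : α = 0
        · refine Or.inr (Or.inr (Or.inr (Or.inr ⟨β, t, 1, ?_⟩)))
          rw [hx', hb']
          funext j
          simp [pw, mom]
        · exact Or.inl ⟨s, t, α, β, hst, hb', hb, hx'⟩

end Helper76_ED
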